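import Pool.Agent.Helper40.Force100

/-!
The achievement number and the avoidance number of cliques on `K_N` for `N = 2 ^ 100` both lie in
`{186, 187, 188}`.
-/

set_option autoImplicit false

namespace Pool.Agent.Results.MP_626b88_co.TwoPow100

/-- The alternating edge game on the complete graph with `N` vertices. A play is the list of the
claimed edges in the order of their claiming; the first player makes the moves number `0, 2, 4, ...`
and the second player the moves number `1, 3, 5, ...`; no edge is claimed twice, and a play is complete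
when every (non-diagonal) edge is in the list.
`CanForce q N p r`: the player who makes the moves congruent to `p` modulo two has a strategy `σ`
(a function of the history, always choosing an unclaimed edge) such that at the end of every complete
play which follows the strategy the edges claimed at the moves congruent to `r` modulo two contain
all edges of a complete graph on `q` vertices. -/
def CanForce (q N p r : ℕ) : Prop :=
  ∃ σ : List (Sym2 (Fin N)) → Sym2 (Fin N),
    (∀ l : List (Sym2 (Fin N)), l.Nodup → (∀ e ∈ l, ¬ e.IsDiag) →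
      (∀ (i : ℕ) (h : i < l.length), i % 2 = p → l[i]'h = σ (l.take i)) →
      l.length % 2 = p → (∃ e : Sym2 (Fin N), ¬ e.IsDiag ∧ e ∉ l) →
      (¬ (σ l).IsDiag ∧ σ l ∉ l)) ∧
    (∀ l : List (Sym2 (Fin N)), l.Nodup → (∀ e ∈ l, ¬ e.IsDiag) →
      (∀ e : Sym2 (Fin N), ¬ e.IsDiag → e ∈ l) →
      (∀ (i : ℕ) (h : i < l.length), i % 2 = p → l[i]'h = σ (l.take i)) →
      ∃ S : Finset (Fin N), S.card = q ∧
        ∀ a ∈ S, ∀ b ∈ S, a ≠ b → ∃ (i : ℕ) (h : i < l.length), i % 2 = r ∧ l[i]'h = s(a, b))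

/-- The first player, as Maker, wins the clique game `(K_N, K_q)`: he can force that he himself owns
a complete graph on `q` vertices. -/
def MakerWins (q N : ℕ) : Prop := CanForce q N 0 0

/-- Forcer (the second player) wins the Avoider-Forcer game: he can force that Avoider (the first
player) owns a complete graph on `q` vertices. -/
def ForcerWins (q N : ℕ) : Prop := CanForce q N 1 0

/-- `a` is the clique achievement number of `K_N`. -/
def IsAchievementNumber (N a : ℕ) : Prop := IsGreatest {q : ℕ | MakerWins q N} a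

/-- `a` is the clique avoidance number of `K_N`. -/
def IsAvoidanceNumber (N a : ℕ) : Prop := IsGreatest {q : ℕ | ForcerWins q N} a

open Pool.Agent.Helper40.Game Pool.Agent.Helper40.K9 Pool.Agent.Helper40.SM
  Pool.Agent.Helper40.CF Pool.Agent.Helper40.F100

lemma canForce_of {q p : ℕ} {σ : List (Sym2 (Fin NN)) → Sym2 (Fin NN)}
    (h1 : Legal (EE NN) p σ)
    (h2 : ∀ h : List (Sym2 (Fin NN)), h.Nodup → (∀ e ∈ h, e ∈ EE NN) → (∀ e ∈ EE NN, e ∈ h) →
      Cons σ p h → ∃ i ∈ fam NN q, edg i ⊆ cls 0 h) : CanForce q NN p 0 := by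
  refine ⟨σ, ?_, ?_⟩
  · intro l hnd hE hc hl hex
    obtain ⟨e, he, hel⟩ := hex
    have h3 := h1 l hnd (fun e he => mem_EE.2 (hE e he)) hc hl ⟨e, mem_EE.2 he, hel⟩
    exact ⟨mem_EE.1 h3.1, h3.2⟩
  · intro l hnd hE hall hc
    obtain ⟨S, hS, hS2⟩ := h2 l hnd (fun e he => mem_EE.2 (hE e he))
      (fun e he => hall e (mem_EE.1 he)) hc
    refine ⟨S, mem_fam.1 hS, ?_⟩
    intro a ha b hb hab
    exact exists_of_mem_cls (hS2 (mem_edg.2 ⟨ha, hb, hab⟩))

lemma of_canForce {q p : ℕ} (h : CanForce q NN p 0) :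
    ∃ σ : List (Sym2 (Fin NN)) → Sym2 (Fin NN), Legal (EE NN) p σ ∧
      ∀ l : List (Sym2 (Fin NN)), l.Nodup → (∀ e ∈ l, e ∈ EE NN) → (∀ e ∈ EE NN, e ∈ l) →
        Cons σ p l → ∃ S : Finset (Fin NN), S.card = q ∧ edg S ⊆ cls 0 l := by
  obtain ⟨σ, h1, h2⟩ := h
  refine ⟨σ, ?_, ?_⟩
  · intro l hnd hE hc hl hex
    obtain ⟨e, he, hel⟩ := hex
    have h3 := h1 l hnd (fun e he => mem_EE.1 (hE e he)) hc hl ⟨e, mem_EE.1 he, hel⟩
    exact ⟨mem_EE.2 h3.1, h3.2⟩
  · intro l hnd hE hall hc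
    obtain ⟨S, hS, hS2⟩ := h2 l hnd (fun e he => mem_EE.1 (hE e he))
      (fun e he => hall e (mem_EE.2 he)) hc
    refine ⟨S, hS, ?_⟩
    intro e he
    induction e with
    | h a b =>
        rw [mem_edg] at he
        obtain ⟨i, hi, hi2, hie⟩ := hS2 a he.1 b he.2.1 he.2.2
        rw [← hie]
        exact mem_cls_of_getElem hnd hi hi2

lemma edg_mono {S S' : Finset (Fin NN)} (h : S' ⊆ S) : edg S' ⊆ edg S := by
  intro e he
  induction e with
  | h a b =>
      rw [mem_edg] at he ⊢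
      exact ⟨h he.1, h he.2.1, he.2.2⟩

lemma shrink {q : ℕ} (hq : 189 ≤ q) {l : List (Sym2 (Fin NN))}
    (h : ∃ S : Finset (Fin NN), S.card = q ∧ edg S ⊆ cls 0 l) :
    ∃ i ∈ fam NN 189, edg i ⊆ cls 0 l := by
  obtain ⟨S, hS, hS2⟩ := h
  obtain ⟨S', h1, h2⟩ := Finset.exists_subset_card_eq (s := S) (n := 189) (by omega)
  exact ⟨S', mem_fam.2 h2, (edg_mono h1).trans hS2⟩

lemma maker_le {q : ℕ} (h : CanForce q NN 0 0) : q ≤ 188 := by
  by_contra hq
  obtain ⟨σ, h1, h2⟩ := of_canForce h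
  obtain ⟨τ, h3, h4⟩ := breaker
  obtain ⟨l, hnd, hE, hall, hc, hd⟩ := exists_play h1 h3
  obtain ⟨i, hi, hi2⟩ := shrink (by omega) (h2 l hnd hE hall hc)
  exact h4 l hnd hE hall hd i hi hi2

lemma forcer_le {q : ℕ} (h : CanForce q NN 1 0) : q ≤ 188 := by
  by_contra hq
  obtain ⟨σ, h1, h2⟩ := of_canForce h
  obtain ⟨τ, h3, h4⟩ := avoider
  obtain ⟨l, hnd, hE, hall, hc, hd⟩ := exists_play h3 h1
  obtain ⟨i, hi, hi2⟩ := shrink (by omega) (h2 l hnd hE hall hd)
  exact h4 l hnd hE hall hc i hi hi2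

lemma greatest {P : ℕ → Prop} (h186 : P 186) (hle : ∀ q, P q → q ≤ 188) :
    ∃ a : ℕ, IsGreatest {q : ℕ | P q} a ∧ 186 ≤ a ∧ a ≤ 188 := by
  have hb : BddAbove {q : ℕ | P q} := ⟨188, fun q hq => hle q hq⟩
  have hne : {q : ℕ | P q}.Nonempty := ⟨186, h186⟩
  refine ⟨sSup {q : ℕ | P q}, ⟨Nat.sSup_mem hne hb, fun q hq => le_csSup hb hq⟩,
    le_csSup hb h186, hle _ (Nat.sSup_mem hne hb)⟩

/-- For `N = 2 ^ 100` the clique achievement number and the clique avoidance number of `K_N` exist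
and both lie in `{186, 187, 188}`. -/
theorem result :
    (∃ a : ℕ, IsAchievementNumber (2 ^ 100) a ∧ 186 ≤ a ∧ a ≤ 188) ∧
    (∃ a : ℕ, IsAvoidanceNumber (2 ^ 100) a ∧ 186 ≤ a ∧ a ≤ 188) := by
  have key : (∃ a : ℕ, IsAchievementNumber NN a ∧ 186 ≤ a ∧ a ≤ 188) ∧
      (∃ a : ℕ, IsAvoidanceNumber NN a ∧ 186 ≤ a ∧ a ≤ 188) := by
    constructor
    · refine greatest (P := fun q => MakerWins q NN) ?_ (fun q hq => maker_le hq)
      obtain ⟨σ, h1, h2⟩ := maker
      exact canForce_of h1 h2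
    · refine greatest (P := fun q => ForcerWins q NN) ?_ (fun q hq => forcer_le hq)
      obtain ⟨σ, h1, h2⟩ := forcer
      exact canForce_of h1 h2
  exact key

end Pool.Agent.Results.MP_626b88_co.TwoPow100
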